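import Pool.Agent.V11235.TruthTree

/-!
A material tautology that is not acceptable: `(p ∧ ¬p) → q`.
-/

namespace Pool.Agent.Results.MP_dcacc7_lc.NotAcceptable

open Pool.Agent.V11235.TruthTree

/-- Classical evaluation, reading `a → b` as `¬a ∨ b`. -/
def mev (v : ℕ → Bool) : Fm → Bool
  | .var n => v n
  | .neg a => !mev v a
  | .and a b => mev v a && mev v b
  | .or a b => mev v a || mev v b
  | .imp a b => !mev v a || mev v b

/-- Material tautologies. -/
def MaterialTautology (φ : Fm) : Prop := ∀ v, mev v φ = true

/-- The formula `(p ∧ ¬p) → q`. -/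
def exFalso : Fm := .imp (.and (.var 0) (.neg (.var 0))) (.var 1)

/-- `(p ∧ ¬p) → q` is a material tautology that is not acceptable. -/
theorem result : MaterialTautology exFalso ∧ exFalso ∉ Acceptable Crashes := by
  constructor
  · intro v
    simp only [exFalso, mev]
    cases v 0 <;> simp
  · intro h
    refine acceptable_valid h (fun n => if n = 0 then 2 else 3) ?_
    simp only [exFalso, ev]
    decide

end Pool.Agent.Results.MP_dcacc7_lc.NotAcceptable
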